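import Pool.Agent.R98.EQ.Gen
import Pool.Agent.R98.EQ.Part

/-!
Semialgebraic designs, part 3: in a generic position every set of `k` points is cut out by a
polynomial of degree `O(k ^ (1 / d))`.
-/

set_option autoImplicit false

namespace Pool.Agent.U671.SD

open MvPolynomial Finset
open Pool.Agent.R98.EQ

open scoped Classical

/-- A polynomial in a box with given zeros. -/
theorem exists_box (d a : ℕ) {β : Type} [Fintype β] (z : β → Fin d → ℝ)
    (h : Fintype.card β < (a + 1) ^ d) : ∃ p : MvPolynomial (Fin d) ℝ, p ≠ 0 ∧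
      (∀ i, degreeOf i p ≤ a) ∧ ∀ b, eval (z b) p = 0 := by
  let f : ((Fin d → Fin (a + 1)) → ℝ) →ₗ[ℝ] (β → ℝ) :=
    { toFun := fun v b => ∑ α : Fin d → Fin (a + 1), v α * ∏ i, z b i ^ (α i : ℕ)
      map_add' := by
        intro v w
        funext b
        simp only [Pi.add_apply, add_mul, Finset.sum_add_distrib]
      map_smul' := by
        intro r v
        funext b
        simp only [Pi.smul_apply, smul_eq_mul, RingHom.id_apply, Finset.mul_sum, mul_assoc] }
  have hk : LinearMap.ker f ≠ ⊥ := by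
    apply LinearMap.ker_ne_bot_of_finrank_lt
    rw [Module.finrank_fintype_fun_eq_card, Module.finrank_fintype_fun_eq_card]
    simpa using h
  obtain ⟨v, hv, hv0⟩ := (Submodule.ne_bot_iff _).1 hk
  refine ⟨Gen.pol v, ?_, Gen.deg_pol v, ?_⟩
  · intro h0
    apply hv0
    funext α
    rw [← Gen.coeff_pol v α, h0]
    simp
  · intro b
    rw [Gen.eval_box (Gen.pol v) (Gen.deg_pol v)]
    have := congrFun (LinearMap.mem_ker.1 hv) b
    simp only [f, LinearMap.coe_mk, AddHom.coe_mk, Pi.zero_apply] at this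
    rw [← this]
    refine Finset.sum_congr rfl fun α _ => ?_
    rw [Gen.coeff_pol]

/-- Natural `d`-th root. -/
theorem exists_root (d k : ℕ) (hd : 1 ≤ d) : ∃ a : ℕ, a ^ d ≤ k ∧ k < (a + 1) ^ d := by
  have hex : ∃ a : ℕ, k < (a + 1) ^ d :=
    ⟨k, lt_of_lt_of_le (Nat.lt_succ_self k) (Nat.le_self_pow (by omega) _)⟩
  refine ⟨Nat.find hex, ?_, Nat.find_spec hex⟩
  rcases Nat.eq_zero_or_pos (Nat.find hex) with h | h
  · rw [h, zero_pow (by omega)]
    exact Nat.zero_le _
  · have := Nat.find_min hex (m := Nat.find hex - 1) (by omega)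
    rw [Nat.sub_add_cancel h] at this
    omega

theorem sharp (d v k : ℕ) (hd : 1 ≤ d) : ∃ (x : Fin v → Fin d → ℝ) (D : ℕ),
    Function.Injective x ∧ D ^ d ≤ (2 * d) ^ d * k ∧ ∀ B : Finset (Fin v), B.card ≤ k →
      ∃ g : MvPolynomial (Fin d) ℝ, g.totalDegree ≤ D ∧ ∀ i, eval (x i) g = 0 ↔ i ∈ B := by
  obtain ⟨a, ha1, ha2⟩ := exists_root d k hd
  set N : ℕ := (a + 1) ^ d with hN
  obtain ⟨x', hx', -⟩ := gen d hd (Fin v ⊕ Fin N) (fun _ _ => 0) 1 one_pos
  refine ⟨fun i => x' (Sum.inl i), 2 * d * a, ?_, ?_, ?_⟩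
  · intro i j hij
    exact Sum.inl_injective (hx'.1 hij)
  · rw [mul_pow]
    exact Nat.mul_le_mul_left _ ha1
  · intro B hB
    have key : ∀ y, y ∉ B → ∃ p : MvPolynomial (Fin d) ℝ, p.totalDegree ≤ d * a ∧
        (∀ i ∈ B, eval (x' (Sum.inl i)) p = 0) ∧ eval (x' (Sum.inl y)) p ≠ 0 := by
      intro y hy
      obtain ⟨E, hE⟩ := Finset.exists_subset_card_eq (s := (univ : Finset (Fin N)))
        (n := N - 1 - B.card) (by rw [Finset.card_univ, Fintype.card_fin]; omega)
      obtain ⟨p, hp0, hp1, hp2⟩ := exists_box d a (β := {i // i ∈ B} ⊕ {i // i ∈ E})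
        (Sum.elim (fun i => x' (Sum.inl i.1)) (fun i => x' (Sum.inr i.1))) (by
          rw [Fintype.card_sum, Fintype.card_coe, Fintype.card_coe, hE.2]
          omega)
      refine ⟨p, PartAux.totalDegree_le_of_degreeOf hp1, fun i hi => hp2 (Sum.inl ⟨i, hi⟩), ?_⟩
      intro hcon
      have h1 := hx'.2 a p hp0 hp1
      have h2 : (insert y B).image Sum.inl ∪ E.image Sum.inr ⊆
          univ.filter (fun i => eval (x' i) p = 0) := by
        intro i hi
        rw [Finset.mem_union, Finset.mem_image, Finset.mem_image] at hi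
        rw [Finset.mem_filter]
        refine ⟨mem_univ _, ?_⟩
        rcases hi with ⟨j, hj, rfl⟩ | ⟨j, hj, rfl⟩
        · rcases Finset.mem_insert.1 hj with rfl | hj
          · exact hcon
          · exact hp2 (Sum.inl ⟨j, hj⟩)
        · exact hp2 (Sum.inr ⟨j, hj⟩)
      have h3 := Finset.card_le_card h2
      have hdis : Disjoint ((insert y B).image (Sum.inl : Fin v → Fin v ⊕ Fin N))
          (E.image Sum.inr) := by
        rw [Finset.disjoint_left]
        intro i hi hi'
        obtain ⟨j, _, rfl⟩ := Finset.mem_image.1 hi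
        obtain ⟨j', _, h⟩ := Finset.mem_image.1 hi'
        cases h
      rw [Finset.card_union_of_disjoint hdis, Finset.card_image_of_injective _ Sum.inl_injective,
        Finset.card_image_of_injective _ Sum.inr_injective, Finset.card_insert_of_notMem hy,
        hE.2] at h3
      omega
    choose! p hp1 hp2 hp3 using key
    refine ⟨∑ y ∈ univ.filter (fun y => y ∉ B), p y ^ 2, ?_, ?_⟩
    · refine totalDegree_finsetSum_le fun y hy => ?_
      refine (totalDegree_pow _ _).trans ?_
      have := hp1 y (Finset.mem_filter.1 hy).2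
      calc 2 * (p y).totalDegree ≤ 2 * (d * a) := Nat.mul_le_mul_left _ this
        _ = 2 * d * a := by ring
    · intro i
      rw [map_sum]
      simp only [map_pow]
      constructor
      · intro h
        by_contra hi
        have h1 := (Finset.sum_eq_zero_iff_of_nonneg (fun y _ => sq_nonneg _)).1 h i
          (Finset.mem_filter.2 ⟨mem_univ _, hi⟩)
        exact hp3 i hi (pow_eq_zero_iff (two_ne_zero) |>.1 h1)
      · intro hi
        refine Finset.sum_eq_zero fun y hy => ?_
        rw [hp2 y (Finset.mem_filter.1 hy).2 i hi]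
        norm_num

end Pool.Agent.U671.SD
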