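import Pool.Agent.R98.EQ.Close
import Pool.Agent.R98.EQ.Cross
import Pool.Agent.R98.EQ.Comp
import Pool.Agent.R98.EQ.Crit
import Pool.Agent.R98.EQ.Crit0
import Pool.Agent.R98.EQ.Rel
import Pool.Agent.R98.EQ.Sol
import Pool.Agent.R98.EQ.Ham
import Pool.Agent.R98.EQ.Part
import Pool.Agent.R98.EQ.Gen
import Pool.Agent.R98.EQ.Strict

/-!
Semialgebraic designs, part 1: the points of a finite family in `ℝ^d` (in arbitrary position) are
divided into cells such that every semialgebraic set of complexity at most `D` cuts few cells.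
-/

set_option autoImplicit false

namespace Pool.Agent.U671.SD

open MvPolynomial Finset
open Pool.Agent.R98.EQ

open scoped Classical

/-- Perturbation to a generic family, for subsets of `ℝ^d`. -/
theorem strict1 (d D n : ℕ) (hd : 1 ≤ d) (x : Fin n → Fin d → ℝ) :
    ∃ x' : Fin n → Fin d → ℝ, Generic d x' ∧ ∀ gs : List (MvPolynomial (Fin d) ℝ),
      degSum gs ≤ D → ∃ gs' : List (MvPolynomial (Fin d) ℝ), degSum gs' ≤ 2 * D ∧
        (∀ g ∈ gs', ∀ a, eval (x' a) g ≠ 0) ∧
        ∀ a b, ¬ Crosses gs' (x' a) (x' b) → ¬ Crosses gs (x a) (x b) := by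
  obtain ⟨x', h1, h2⟩ := strict gen d 1 D hd (fun _ => n) (fun _ => x)
  refine ⟨x' 0, h1 0, fun gs hgs => ?_⟩
  have key : ∀ (y : ∀ _ : Fin 1, Fin n → Fin d → ℝ) (a : Fin n) (g : MvPolynomial (Fin 1 × Fin d) ℝ),
      eval (tup y (fun _ => a)) g = eval (y 0 a) (rename Prod.snd g) := by
    intro y a g
    rw [eval_rename]
    congr 1
    congr 1
    funext v
    simp only [tup, Function.comp]
    rw [Subsingleton.elim v.1 0]
  have key2 : ∀ (y : ∀ _ : Fin 1, Fin n → Fin d → ℝ) (a : Fin n) (g : MvPolynomial (Fin d) ℝ),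
      eval (tup y (fun _ => a)) (rename (fun j => ((0 : Fin 1), j)) g) = eval (y 0 a) g := by
    intro y a g
    rw [eval_rename]
    congr 1
  obtain ⟨gs', h3, h4, h5⟩ := h2 (gs.map (rename (fun j => ((0 : Fin 1), j)))) (by
    refine le_trans ?_ hgs
    unfold degSum
    rw [List.map_map]
    refine List.sum_le_sum fun g _ => ?_
    exact totalDegree_rename_le _ _)
  refine ⟨gs'.map (rename Prod.snd), ?_, ?_, ?_⟩
  · refine le_trans ?_ h3
    unfold degSum
    rw [List.map_map]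
    refine List.sum_le_sum fun g _ => ?_
    exact totalDegree_rename_le _ _
  · intro g hg a
    obtain ⟨g', hg', rfl⟩ := List.mem_map.1 hg
    rw [← key x' a g']
    exact h4 g' hg' _
  · intro a b hab hcr
    refine h5 (fun _ => a) (fun _ => b) ?_ ?_
    · rintro ⟨g, hg, hne⟩
      refine hab ⟨rename Prod.snd g, List.mem_map_of_mem hg, ?_⟩
      rw [← key x' a g, ← key x' b g]
      exact hne
    · obtain ⟨g, hg, hne⟩ := hcr
      refine ⟨rename (fun j => ((0 : Fin 1), j)) g, List.mem_map_of_mem hg, ?_⟩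
      have e1 := key2 (fun _ => x) a g
      have e2 := key2 (fun _ => x) b g
      rw [e1, e2]
      exact hne

/-- Division of a generic family into cells. -/
theorem cells0 (d : ℕ) (hd : 1 ≤ d) : ∃ K : ℕ, 1 ≤ K ∧ ∀ (n : ℕ) (x : Fin n → Fin d → ℝ),
    Generic d x → ∀ L : ℕ, ∃ (κ : Type) (_ : Fintype κ) (c : Fin n → Option κ),
      Fintype.card κ ≤ K * 2 ^ (d * L) ∧
      (univ.filter (fun i => c i = none)).card ≤ K * 2 ^ (d * L) ∧
      (∀ s, (univ.filter (fun i => c i = some s)).card * 2 ^ (d * L) ≤ n) ∧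
      ∀ (D : ℕ) (gs : List (MvPolynomial (Fin d) ℝ)), D ≤ 2 ^ L → degSum gs ≤ D →
        (∀ g ∈ gs, ∀ i, eval (x i) g ≠ 0) →
        (univ.filter (fun s : κ => ∃ i j, c i = some s ∧ c j = some s ∧
          Crosses gs (x i) (x j))).card ≤ K * D * 2 ^ ((d - 1) * L) := by
  have hX : CrossStmt := cross rel sol crit
  have hC : CompStmt := comp rel sol crit0
  have hP : PartStmt := part ham
  obtain ⟨K1, hK1⟩ := hP d hd
  have : Nonempty (Fin d) := ⟨⟨0, by omega⟩⟩
  obtain ⟨K2, hK2⟩ := hC (Fin d)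
  obtain ⟨K3, hK3⟩ := hX (Fin d)
  simp only [Fintype.card_fin] at hK2 hK3
  have hXK : CLOSE.CrossK d K3 := hK3
  refine ⟨K1 + K2 * (K1 + 1) ^ d + 2 * K3 * (K1 + 2) ^ (d - 1) + 1, by omega, ?_⟩
  set K : ℕ := K1 + K2 * (K1 + 1) ^ d + 2 * K3 * (K1 + 2) ^ (d - 1) + 1 with hKdef
  intro n x hgen L
  obtain ⟨f, hf0, hfd, hfz, hfc⟩ := hK1 (Fin n) x hgen L
  set m : ℕ := (K1 + 1) * 2 ^ L with hmdef
  have h2L : 1 ≤ 2 ^ L := Nat.one_le_two_pow
  have hm1 : 1 ≤ m := Nat.one_le_iff_ne_zero.2 (by positivity)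
  have hfm : f.totalDegree ≤ m := hfd.trans (Nat.mul_le_mul_right _ (by omega))
  have hmd : m ^ d = (K1 + 1) ^ d * 2 ^ (d * L) := by
    rw [hmdef, mul_pow, ← pow_mul, Nat.mul_comm L d]
  set G : Finset (Fin n) := univ.filter (fun i => eval (x i) f ≠ 0) with hG
  set CS : Finset (Set (Fin d → ℝ)) := G.image (fun i => cell f (x i)) with hCS
  -- the cells
  have hmem : ∀ i, eval (x i) f ≠ 0 → cell f (x i) ∈ CS := by
    intro i hi
    rw [hCS, Finset.mem_image]
    exact ⟨i, by rw [hG, Finset.mem_filter]; exact ⟨mem_univ _, hi⟩, rfl⟩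
  obtain ⟨κ, hκ, ⟨e⟩⟩ : ∃ (κ : Type) (_ : Fintype κ), Nonempty ({c // c ∈ CS} ≃ κ) :=
    ⟨_, inferInstance, ⟨Equiv.refl _⟩⟩
  let c : Fin n → Option κ := fun i =>
    if h : eval (x i) f ≠ 0 then some (e ⟨cell f (x i), hmem i h⟩) else none
  have hcs : ∀ i (s : κ), c i = some s ↔ eval (x i) f ≠ 0 ∧ cell f (x i) = (e.symm s).1 := by
    intro i s
    by_cases h : eval (x i) f ≠ 0
    · simp only [c, dif_pos h, Option.some.injEq]
      constructor
      · intro h1
        exact ⟨h, by rw [← h1, Equiv.symm_apply_apply]⟩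
      · intro h1
        rw [← Equiv.eq_symm_apply]
        exact Subtype.ext h1.2
    · simp only [c, dif_neg h]
      constructor
      · intro h1; exact absurd h1 (by simp)
      · intro h1; exact absurd h1.1 h
  have hcn : ∀ i, c i = none ↔ eval (x i) f = 0 := by
    intro i
    by_cases h : eval (x i) f ≠ 0
    · simp only [c, dif_pos h]
      constructor
      · intro h1; exact absurd h1 (by simp)
      · intro h1; exact absurd h1 h
    · simp only [c, dif_neg h]
      simpa using h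
  refine ⟨κ, hκ, c, ?_, ?_, ?_, ?_⟩
  · rw [← Fintype.card_congr e, Fintype.card_coe]
    have hrep : ∀ c : {c // c ∈ CS}, ∃ i, eval (x i) f ≠ 0 ∧ cell f (x i) = c.1 := by
      rintro ⟨c, hc⟩
      rw [hCS, Finset.mem_image] at hc
      obtain ⟨i, hi, rfl⟩ := hc
      exact ⟨i, (Finset.mem_filter.1 hi).2, rfl⟩
    choose r hr1 hr2 using hrep
    have h1 := hK2 f m hm1 hfm {c // c ∈ CS} (fun c => x (r c)) hr1 (fun a b hab => by
      apply Subtype.ext
      rw [← hr2 a, ← hr2 b]
      exact hab)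
    rw [Fintype.card_coe] at h1
    refine h1.trans ?_
    rw [hmd, ← mul_assoc]
    exact Nat.mul_le_mul_right _ (by omega)
  · have : (univ.filter (fun i => c i = none)) = univ.filter (fun i => eval (x i) f = 0) := by
      refine Finset.filter_congr fun i _ => ?_
      exact hcn i
    rw [this]
    exact hfz.trans (Nat.mul_le_mul_right _ (by omega))
  · rintro s
    obtain ⟨i, hi, hs⟩ := Finset.mem_image.1 (e.symm s).2
    have hi0 : eval (x i) f ≠ 0 := (Finset.mem_filter.1 hi).2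
    have h1 := hfc i hi0
    rw [Fintype.card_fin] at h1
    refine le_trans (Nat.mul_le_mul_right _ (Finset.card_le_card ?_)) h1
    intro j hj
    rw [Finset.mem_filter] at hj ⊢
    refine ⟨mem_univ _, ?_⟩
    have h2 := (hcs j s).1 hj.2
    have h3 : cell f (x i) = cell f (x j) := by rw [h2.2]; exact hs
    rw [h3]
    exact CLOSE.mem_self f h2.1
  · intro D gs hDL hgs hnz
    -- choose pairs
    set W : Finset κ := univ.filter (fun s => ∃ i j, c i = some s ∧ c j = some s ∧
          Crosses gs (x i) (x j)) with hW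
    have hpair : ∀ s : {s // s ∈ W}, ∃ i j, c i = some s.1 ∧ c j = some s.1 ∧
        Crosses gs (x i) (x j) := fun s => (Finset.mem_filter.1 s.2).2
    choose a b ha hb hab using hpair
    have h1 := CLOSE.count_list d K3 hXK f m hm1 hfm {s // s ∈ W} (fun t => x (a t))
      (fun t => x (b t)) (fun t => ((hcs _ _).1 (ha t)).1) (fun t => by
        have e1 := (hcs _ _).1 (ha t)
        have e2 := (hcs _ _).1 (hb t)
        show x (b t) ∈ cell f (x (a t))
        rw [e1.2, ← e2.2]
        exact CLOSE.mem_self f e2.1)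
      (fun s t hst => by
        have e1 := (hcs _ _).1 (ha s)
        have e2 := (hcs _ _).1 (ha t)
        apply Subtype.ext
        apply e.symm.injective
        apply Subtype.ext
        rw [← e1.2, ← e2.2]
        exact hst) D gs
      (fun g hg => by
        refine le_trans ?_ hgs
        exact List.single_le_sum (by simp) _ (List.mem_map_of_mem hg))
      (fun g hg t => hnz g hg _) (fun g hg t => hnz g hg _)
    have h2 : (univ.filter (fun t : {s // s ∈ W} => Crosses gs (x (a t)) (x (b t)))) = univ := by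
      rw [Finset.filter_eq_self]
      intro t _
      exact hab t
    rw [h2, Finset.card_univ, Fintype.card_coe] at h1
    refine h1.trans ?_
    have h3 : (m + D) ^ (d - 1) ≤ (K1 + 2) ^ (d - 1) * 2 ^ ((d - 1) * L) := by
      rw [Nat.mul_comm (d - 1) L, pow_mul, ← mul_pow]
      refine Nat.pow_le_pow_left ?_ _
      rw [hmdef]
      nlinarith
    calc 2 * K3 * (m + D) ^ (d - 1) * degSum gs
        ≤ 2 * K3 * ((K1 + 2) ^ (d - 1) * 2 ^ ((d - 1) * L)) * D := by gcongr
      _ = (2 * K3 * (K1 + 2) ^ (d - 1)) * D * 2 ^ ((d - 1) * L) := by ring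
      _ ≤ K * D * 2 ^ ((d - 1) * L) := by
        refine Nat.mul_le_mul_right _ (Nat.mul_le_mul_right _ ?_)
        omega

/-- Division of an arbitrary finite family of points into cells. -/
theorem cells (d : ℕ) (hd : 1 ≤ d) : ∃ K : ℕ, 1 ≤ K ∧ ∀ (n : ℕ) (x : Fin n → Fin d → ℝ)
    (L D : ℕ), 2 * D ≤ 2 ^ L → ∃ (κ : Type) (_ : Fintype κ) (c : Fin n → Option κ),
      Fintype.card κ ≤ K * 2 ^ (d * L) ∧
      (univ.filter (fun i => c i = none)).card ≤ K * 2 ^ (d * L) ∧
      (∀ s, (univ.filter (fun i => c i = some s)).card * 2 ^ (d * L) ≤ n) ∧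
      ∀ (gs : List (MvPolynomial (Fin d) ℝ)), degSum gs ≤ D →
        (univ.filter (fun s : κ => ∃ i j, c i = some s ∧ c j = some s ∧
          Crosses gs (x i) (x j))).card ≤ K * (2 * D) * 2 ^ ((d - 1) * L) := by
  obtain ⟨K, hK, h⟩ := cells0 d hd
  refine ⟨K, hK, fun n x L D hDL => ?_⟩
  obtain ⟨x', hx', hgs⟩ := strict1 d D n hd x
  obtain ⟨κ, hκ, c, h1, h2, h3, h4⟩ := h n x' hx' L
  refine ⟨κ, hκ, c, h1, h2, h3, fun gs hdeg => ?_⟩
  obtain ⟨gs', h5, h6, h7⟩ := hgs gs hdeg
  refine le_trans (Finset.card_le_card ?_) (h4 (2 * D) gs' hDL h5 h6)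
  intro s hs
  rw [Finset.mem_filter] at hs ⊢
  obtain ⟨_, i, j, hi, hj, hij⟩ := hs
  refine ⟨mem_univ _, i, j, hi, hj, ?_⟩
  by_contra hcon
  exact h7 i j hcon hij

end Pool.Agent.U671.SD
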