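import Mathlib

/-!
Semialgebraic designs, part 2: counting pairs of points in the cells.
-/

set_option autoImplicit false

namespace Pool.Agent.U671.SD

open Finset

open scoped Classical

section

variable {v b k lam : ℕ} (B : Fin b → Finset (Fin v))

/-- Every point is in `r` blocks with `r * (k - 1) = lam * (v - 1)`. -/
theorem rep (hB : ∀ j, (B j).card = k)
    (hl : ∀ x y, x ≠ y → (univ.filter (fun j => x ∈ B j ∧ y ∈ B j)).card = lam) (x : Fin v) :
    (univ.filter (fun j => x ∈ B j)).card * (k - 1) = lam * (v - 1) := by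
  have h1 : ∑ j ∈ univ.filter (fun j => x ∈ B j), ((B j).erase x).card =
      (univ.filter (fun j => x ∈ B j)).card * (k - 1) := by
    rw [Finset.sum_const_nat]
    intro j hj
    rw [Finset.card_erase_of_mem (Finset.mem_filter.1 hj).2, hB]
  have h2 : ∑ y ∈ univ.erase x, (univ.filter (fun j => x ∈ B j ∧ y ∈ B j)).card =
      lam * (v - 1) := by
    rw [Finset.sum_const_nat (m := lam)]
    · rw [Finset.card_erase_of_mem (mem_univ _), Finset.card_univ, Fintype.card_fin, Nat.mul_comm]
    · intro y hy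
      exact hl x y (Finset.ne_of_mem_erase hy).symm
  rw [← h1, ← h2]
  have e1 : ∀ j ∈ univ.filter (fun j => x ∈ B j), ((B j).erase x).card =
      ∑ y ∈ univ.erase x, if x ∈ B j ∧ y ∈ B j then 1 else 0 := by
    intro j hj
    have hx : x ∈ B j := (Finset.mem_filter.1 hj).2
    rw [← Finset.sum_filter, Finset.card_eq_sum_ones]
    refine Finset.sum_congr ?_ (fun _ _ => rfl)
    ext y
    simp only [mem_erase, mem_filter, mem_univ, and_true, hx, true_and]
  rw [Finset.sum_congr rfl e1, Finset.sum_comm]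
  refine Finset.sum_congr rfl fun y _ => ?_
  rw [← Finset.sum_filter, ← Finset.card_eq_sum_ones]
  congr 1
  ext j
  simp only [mem_filter, mem_univ, true_and]
  tauto

theorem flags (X : Finset (Fin v)) :
    ∑ j, (B j ∩ X).card = ∑ x ∈ X, (univ.filter (fun j => x ∈ B j)).card := by
  have e1 : ∀ j, (B j ∩ X).card = ∑ x ∈ X, if x ∈ B j then 1 else 0 := by
    intro j
    rw [← Finset.sum_filter, ← Finset.card_eq_sum_ones]
    congr 1
    ext y
    simp only [mem_inter, mem_filter]
    tauto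
  rw [Finset.sum_congr rfl (fun j _ => e1 j), Finset.sum_comm]
  refine Finset.sum_congr rfl fun y _ => ?_
  rw [← Finset.sum_filter, ← Finset.card_eq_sum_ones]

/-- Pairs of points of a set, counted over the blocks. -/
theorem pairs (hl : ∀ x y, x ≠ y → (univ.filter (fun j => x ∈ B j ∧ y ∈ B j)).card = lam)
    (X : Finset (Fin v)) :
    ∑ j, (B j ∩ X).card ^ 2 ≤
      ∑ x ∈ X, (univ.filter (fun j => x ∈ B j)).card + lam * X.card ^ 2 := by
  have e1 : ∀ j, (B j ∩ X).card ^ 2 = ∑ x ∈ X, ∑ y ∈ X, if x ∈ B j ∧ y ∈ B j then 1 else 0 := by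
    intro j
    have h0 : (B j ∩ X).card = ∑ x ∈ X, if x ∈ B j then 1 else 0 := by
      rw [← Finset.sum_filter, ← Finset.card_eq_sum_ones]
      congr 1
      ext y
      simp only [mem_inter, mem_filter]
      tauto
    rw [pow_two, h0, Finset.sum_mul_sum]
    refine Finset.sum_congr rfl fun x _ => Finset.sum_congr rfl fun y _ => ?_
    by_cases hx : x ∈ B j <;> by_cases hy : y ∈ B j <;> simp [hx, hy]
  rw [Finset.sum_congr rfl (fun j _ => e1 j), Finset.sum_comm]
  have e2 : ∀ x ∈ X, ∑ j, ∑ y ∈ X, (if x ∈ B j ∧ y ∈ B j then 1 else 0) ≤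
      (univ.filter (fun j => x ∈ B j)).card + lam * X.card := by
    intro x hx
    rw [Finset.sum_comm, ← Finset.add_sum_erase _ _ hx]
    refine Nat.add_le_add ?_ ?_
    · rw [← Finset.sum_filter, ← Finset.card_eq_sum_ones]
      refine Finset.card_le_card fun j hj => ?_
      simp only [mem_filter, mem_univ, true_and] at hj ⊢
      exact hj.1
    · have : ∀ y ∈ X.erase x, ∑ j, (if x ∈ B j ∧ y ∈ B j then 1 else 0) = lam := by
        intro y hy
        rw [← Finset.sum_filter, ← Finset.card_eq_sum_ones]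
        exact hl x y (Finset.ne_of_mem_erase hy).symm
      rw [Finset.sum_congr rfl this, Finset.sum_const, smul_eq_mul, Nat.mul_comm]
      exact Nat.mul_le_mul_left _ (Finset.card_le_card (Finset.erase_subset _ _))
  refine (Finset.sum_le_sum e2).trans ?_
  rw [Finset.sum_add_distrib, Finset.sum_const, smul_eq_mul]
  refine Nat.add_le_add_left ?_ _
  rw [pow_two]
  exact le_of_eq (by ring)

end

theorem count {v b k lam : ℕ} (B : Fin b → Finset (Fin v)) (hB : ∀ j, (B j).card = k)
    (hl : ∀ x y, x ≠ y → (univ.filter (fun j => x ∈ B j ∧ y ∈ B j)).card = lam)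
    (hk : 2 ≤ k) (hv : 2 ≤ v) (hlam : 1 ≤ lam) {κ : Type} [Fintype κ] (c : Fin v → Option κ)
    (K N M t : ℕ) (hK : 1 ≤ K) (hN : 1 ≤ N) (hM : 1 ≤ M)
    (hκ : Fintype.card κ ≤ K * N) (hnone : (univ.filter (fun i => c i = none)).card ≤ K * N)
    (hcell : ∀ s, (univ.filter (fun i => c i = some s)).card * N ≤ v)
    (S : Fin b → Finset (Fin v)) (F : Finset (Fin b)) (hS : ∀ j ∈ F, (S j).card ≤ M)
    (ht : ∀ j ∈ F, (univ.filter (fun s : κ => ∃ i i', c i = some s ∧ c i' = some s ∧
      i ∈ S j ∧ i' ∉ S j)).card ≤ t)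
    (ρ ε : ℝ) (hρ : 0 < ρ) (hε : 0 < ε) (hF : ρ * b ≤ F.card)
    (hcor : ∀ j ∈ F, ε * k ≤ (S j ∩ B j).card)
    (hN1 : 16 * (t : ℝ) ≤ N * (ρ * ε ^ 2)) (hN2 : 4 * (K : ℝ) * N * M ≤ ρ * ε * v) :
    k * (ρ * ε ^ 2) ≤ 8 * (t : ℝ) := by
  set cl : κ → Finset (Fin v) := fun s => univ.filter (fun i => c i = some s) with hcl
  set good : Finset (Fin v) := univ.filter (fun i => ∃ s, c i = some s ∧ M < (cl s).card) with hgood
  -- replication number
  have hk1 : (0 : ℝ) < (k : ℝ) - 1 := by
    have : (2 : ℝ) ≤ k := by exact_mod_cast hk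
    linarith
  have hk0 : (0 : ℝ) < k := by linarith
  set r : ℝ := lam * ((v : ℝ) - 1) / ((k : ℝ) - 1) with hr
  have hrx : ∀ x, ((univ.filter (fun j => x ∈ B j)).card : ℝ) = r := by
    intro x
    rw [hr, eq_div_iff hk1.ne']
    have h := rep B hB hl x
    have h' : (((univ.filter (fun j => x ∈ B j)).card * (k - 1) : ℕ) : ℝ) =
        ((lam * (v - 1) : ℕ) : ℝ) := by exact_mod_cast h
    rw [Nat.cast_mul, Nat.cast_mul, Nat.cast_sub (by omega), Nat.cast_sub (by omega)] at h'
    simpa using h'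
  have hv2 : (2 : ℝ) ≤ v := by exact_mod_cast hv
  have hl1 : (1 : ℝ) ≤ lam := by exact_mod_cast hlam
  have hr0 : 0 < r := by
    rw [hr]
    refine div_pos (mul_pos (by linarith) (by linarith)) hk1
  have hflag : ∀ X : Finset (Fin v), ((∑ j, (B j ∩ X).card : ℕ) : ℝ) = X.card * r := by
    intro X
    rw [flags B X, Nat.cast_sum, Finset.sum_congr rfl (fun x _ => hrx x), Finset.sum_const,
      nsmul_eq_mul]
  have hbk : (b : ℝ) * k = v * r := by
    have h := hflag univ
    rw [Finset.card_univ, Fintype.card_fin] at h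
    rw [← h]
    have : ∀ j, (B j ∩ univ).card = k := fun j => by rw [Finset.inter_univ, hB]
    rw [Finset.sum_congr rfl (fun j _ => this j)]
    simp
  have hb0 : (0 : ℝ) < b := by
    have : 0 < (b : ℝ) * k := by rw [hbk]; exact mul_pos (by linarith) hr0
    exact pos_of_mul_pos_left this hk0.le
  -- bad points
  have hbad : ((goodᶜ).card : ℝ) ≤ 2 * K * N * M := by
    have h1 : goodᶜ ⊆ univ.filter (fun i => c i = none) ∪
        (univ.filter (fun s : κ => (cl s).card ≤ M)).biUnion cl := by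
      intro i hi
      rw [Finset.mem_compl, hgood, Finset.mem_filter] at hi
      rw [Finset.mem_union]
      rcases hc : c i with _ | s
      · left
        rw [Finset.mem_filter]
        exact ⟨mem_univ _, hc⟩
      · right
        rw [Finset.mem_biUnion]
        refine ⟨s, ?_, ?_⟩
        · rw [Finset.mem_filter]
          refine ⟨mem_univ _, ?_⟩
          by_contra hcon
          exact hi ⟨mem_univ _, s, hc, by omega⟩
        · rw [hcl, Finset.mem_filter]
          exact ⟨mem_univ _, hc⟩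
    have h2 : (goodᶜ).card ≤ K * N + K * N * M := by
      refine (Finset.card_le_card h1).trans ((Finset.card_union_le _ _).trans ?_)
      refine Nat.add_le_add hnone ?_
      refine Finset.card_biUnion_le.trans ?_
      calc ∑ s ∈ univ.filter (fun s : κ => (cl s).card ≤ M), (cl s).card
          ≤ ∑ s ∈ univ.filter (fun s : κ => (cl s).card ≤ M), M :=
            Finset.sum_le_sum fun s hs => (Finset.mem_filter.1 hs).2
        _ = (univ.filter (fun s : κ => (cl s).card ≤ M)).card * M := by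
            rw [Finset.sum_const, smul_eq_mul]
        _ ≤ K * N * M := by
            refine Nat.mul_le_mul_right _ (le_trans ?_ hκ)
            exact Finset.card_filter_le _ _
    have h3 : (goodᶜ).card ≤ 2 * K * N * M := by
      have : K * N ≤ K * N * M := Nat.le_mul_of_pos_right _ (by omega)
      calc (goodᶜ).card ≤ K * N + K * N * M := h2
        _ ≤ K * N * M + K * N * M := Nat.add_le_add_right this _
        _ = 2 * K * N * M := by ring
    exact_mod_cast h3
  -- the parts of the blocks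
  set T : Fin b → Finset (Fin v) := fun j => (S j ∩ B j) ∩ good with hT
  have hTsum : (F.card : ℝ) * (ε * k) - r * (2 * K * N * M) ≤ ∑ j ∈ F, ((T j).card : ℝ) := by
    have h1 : ∀ j ∈ F, ε * k ≤ ((T j).card : ℝ) + ((B j ∩ goodᶜ).card : ℝ) := by
      intro j hj
      refine (hcor j hj).trans ?_
      have h2 : (S j ∩ B j).card ≤ (T j).card + (B j ∩ goodᶜ).card := by
        refine (Finset.card_le_card ?_).trans (Finset.card_union_le _ _)
        intro i hi
        rw [Finset.mem_inter] at hi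
        rw [Finset.mem_union, hT]
        simp only [Finset.mem_inter, Finset.mem_compl]
        tauto
      exact_mod_cast h2
    have h2 := Finset.sum_le_sum h1
    rw [Finset.sum_const, nsmul_eq_mul, Finset.sum_add_distrib] at h2
    have h3 : ∑ j ∈ F, ((B j ∩ goodᶜ).card : ℝ) ≤ ((∑ j, (B j ∩ goodᶜ).card : ℕ) : ℝ) := by
      rw [Nat.cast_sum]
      exact Finset.sum_le_sum_of_subset_of_nonneg (Finset.subset_univ _)
        (fun _ _ _ => Nat.cast_nonneg _)
    rw [hflag] at h3
    have h4 : ((goodᶜ).card : ℝ) * r ≤ 2 * K * N * M * r := mul_le_mul_of_nonneg_right hbad hr0.le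
    linarith
  -- Cauchy-Schwarz in one block
  have hCS : ∀ j ∈ F, ((T j).card : ℝ) ^ 2 ≤ t * ∑ s, ((B j ∩ cl s).card : ℝ) ^ 2 := by
    intro j hj
    set W : Finset κ := univ.filter (fun s : κ => ∃ i i', c i = some s ∧ c i' = some s ∧
      i ∈ S j ∧ i' ∉ S j) with hW
    have h1 : (T j).card ≤ ∑ s ∈ W, (B j ∩ cl s).card := by
      refine (Finset.card_le_card ?_).trans Finset.card_biUnion_le
      intro i hi
      rw [hT] at hi
      simp only [Finset.mem_inter] at hi
      obtain ⟨⟨hi1, hi2⟩, hi3⟩ := hi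
      obtain ⟨_, s, hs, hMs⟩ := Finset.mem_filter.1 hi3
      rw [Finset.mem_biUnion]
      refine ⟨s, ?_, ?_⟩
      · rw [hW, Finset.mem_filter]
        refine ⟨mem_univ _, i, ?_⟩
        by_contra hcon
        push Not at hcon
        have h2 : cl s ⊆ S j := by
          intro i' hi'
          by_contra h3
          exact h3 (hcon i' hs (Finset.mem_filter.1 hi').2 hi1)
        have h3 := Finset.card_le_card h2
        have h4 := hS j hj
        omega
      · rw [Finset.mem_inter, hcl, Finset.mem_filter]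
        exact ⟨hi2, mem_univ _, hs⟩
    have h2 : ((T j).card : ℝ) ≤ ∑ s ∈ W, ((B j ∩ cl s).card : ℝ) := by exact_mod_cast h1
    calc ((T j).card : ℝ) ^ 2 ≤ (∑ s ∈ W, ((B j ∩ cl s).card : ℝ)) ^ 2 :=
          pow_le_pow_left₀ (Nat.cast_nonneg _) h2 2
      _ ≤ W.card * ∑ s ∈ W, ((B j ∩ cl s).card : ℝ) ^ 2 := sq_sum_le_card_mul_sum_sq
      _ ≤ t * ∑ s, ((B j ∩ cl s).card : ℝ) ^ 2 := by
          refine mul_le_mul ?_ ?_ (Finset.sum_nonneg fun _ _ => sq_nonneg _) (Nat.cast_nonneg _)
          · exact_mod_cast ht j hj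
          · exact Finset.sum_le_sum_of_subset_of_nonneg (Finset.subset_univ _)
              (fun _ _ _ => sq_nonneg _)
  -- all blocks and cells
  have hN0 : (0 : ℝ) < N := by exact_mod_cast hN
  have hcl1 : ∑ s, ((cl s).card : ℝ) ≤ v := by
    have h1 : ∑ s, (cl s).card ≤ v := by
      have h2 : ∑ s, (cl s).card = (univ.biUnion cl).card := by
        rw [Finset.card_biUnion]
        intro s _ s' _ hss
        show Disjoint (cl s) (cl s')
        rw [Finset.disjoint_left]
        intro i hi hi'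
        rw [hcl, Finset.mem_filter] at hi hi'
        rw [hi.2] at hi'
        exact hss (Option.some.inj hi'.2)
      rw [h2]
      refine (Finset.card_le_univ _).trans ?_
      rw [Fintype.card_fin]
    exact_mod_cast h1
  have hcl2 : ∀ s, ((cl s).card : ℝ) ≤ v / N := by
    intro s
    rw [le_div_iff₀ hN0]
    exact_mod_cast hcell s
  have hall : ∑ j, ∑ s, ((B j ∩ cl s).card : ℝ) ^ 2 ≤ v * r + lam * (v * (v / N)) := by
    rw [Finset.sum_comm]
    have h1 : ∀ s, ∑ j, ((B j ∩ cl s).card : ℝ) ^ 2 ≤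
        (cl s).card * r + lam * ((cl s).card * (v / N)) := by
      intro s
      have h2 := pairs B hl (cl s)
      have h3 : ((∑ j, (B j ∩ cl s).card ^ 2 : ℕ) : ℝ) ≤
        ((∑ x ∈ cl s, (univ.filter (fun j => x ∈ B j)).card + lam * (cl s).card ^ 2 : ℕ) : ℝ) := by
        exact_mod_cast h2
      rw [Nat.cast_sum, Nat.cast_add, Nat.cast_sum, Finset.sum_congr rfl (fun x _ => hrx x),
        Finset.sum_const, nsmul_eq_mul] at h3
      simp only [Nat.cast_pow, Nat.cast_mul] at h3
      refine h3.trans ?_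
      refine add_le_add le_rfl (mul_le_mul_of_nonneg_left ?_ (Nat.cast_nonneg _))
      rw [pow_two]
      exact mul_le_mul_of_nonneg_left (hcl2 s) (Nat.cast_nonneg _)
    refine (Finset.sum_le_sum fun s _ => h1 s).trans ?_
    rw [Finset.sum_add_distrib, ← Finset.sum_mul, ← Finset.mul_sum, ← Finset.sum_mul]
    refine add_le_add (mul_le_mul_of_nonneg_right hcl1 hr0.le)
      (mul_le_mul_of_nonneg_left ?_ (Nat.cast_nonneg _))
    exact mul_le_mul_of_nonneg_right hcl1 (by positivity)
  -- conclusion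
  have hfin : (∑ j ∈ F, ((T j).card : ℝ)) ^ 2 ≤
      F.card * (t * (v * r + lam * (v * (v / N)))) := by
    refine sq_sum_le_card_mul_sum_sq.trans (mul_le_mul_of_nonneg_left ?_ (Nat.cast_nonneg _))
    refine (Finset.sum_le_sum hCS).trans ?_
    rw [← Finset.mul_sum]
    refine mul_le_mul_of_nonneg_left ?_ (Nat.cast_nonneg _)
    refine le_trans ?_ hall
    exact Finset.sum_le_sum_of_subset_of_nonneg (Finset.subset_univ _)
        (fun _ _ _ => Finset.sum_nonneg fun _ _ => sq_nonneg _)
  set A : ℝ := (F.card : ℝ) with hA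
  have hA0 : 0 < A := lt_of_lt_of_le (mul_pos hρ hb0) hF
  have hlow : A * (ε * k) / 2 ≤ ∑ j ∈ F, ((T j).card : ℝ) := by
    refine le_trans ?_ hTsum
    have h1 : r * (2 * K * N * M) ≤ ρ * ε * (b * k) / 2 := by
      rw [hbk]
      nlinarith [mul_le_mul_of_nonneg_left hN2 hr0.le]
    have h2 : ρ * ε * (b * k) ≤ A * (ε * k) := by
      have := mul_le_mul_of_nonneg_right hF (mul_nonneg hε.le hk0.le)
      linarith
    linarith
  have hlow0 : 0 ≤ A * (ε * k) / 2 := by positivity
  have h1 : (A * (ε * k) / 2) ^ 2 ≤ A * (t * (v * r + lam * (v * (v / N)))) :=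
    (pow_le_pow_left₀ hlow0 hlow 2).trans hfin
  have h2 : A * (ε * k) ^ 2 / 4 ≤ t * (v * r + lam * (v * (v / N))) := by
    have h3 : A * (A * (ε * k) ^ 2 / 4) ≤ A * (t * (v * r + lam * (v * (v / N)))) := by
      refine le_trans (le_of_eq ?_) h1
      ring
    exact le_of_mul_le_mul_left h3 hA0
  have h3 : ρ * b * (ε * k) ^ 2 / 4 ≤ t * (v * r + lam * (v * (v / N))) := by
    refine le_trans ?_ h2
    have := mul_le_mul_of_nonneg_right hF (sq_nonneg (ε * k))
    linarith
  have h4 : lam * ((v : ℝ) * v) ≤ 2 * (b * k * k) := by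
    rw [hbk]
    have h5 : lam * ((v : ℝ) - 1) = r * (k - 1) := by
      rw [hr]
      field_simp
    have h6 : lam * (v : ℝ) ≤ 2 * (r * k) := by
      have : lam * (v : ℝ) ≤ 2 * (lam * ((v : ℝ) - 1)) := by nlinarith
      rw [h5] at this
      nlinarith
    calc lam * ((v : ℝ) * v) = v * (lam * v) := by ring
      _ ≤ v * (2 * (r * k)) := mul_le_mul_of_nonneg_left h6 (by linarith)
      _ = 2 * (v * r * k) := by ring
  have ht0 : (0 : ℝ) ≤ t := Nat.cast_nonneg _
  have h5 : ρ * b * (ε * k) ^ 2 / 4 ≤ t * (b * k) + t * (2 * (b * k * k) / N) := by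
    refine h3.trans ?_
    rw [mul_add, ← hbk]
    refine add_le_add le_rfl (mul_le_mul_of_nonneg_left ?_ ht0)
    rw [show (lam : ℝ) * (v * (v / N)) = lam * (v * v) / N by ring]
    exact div_le_div_of_nonneg_right h4 hN0.le
  have hbk0 : 0 < (b : ℝ) * k := mul_pos hb0 hk0
  have h6 : (b * k) * (k * (ρ * ε ^ 2) / 4) ≤ (b * k) * (t + 2 * (t * k) / N) := by
    refine le_trans (le_of_eq ?_) (h5.trans (le_of_eq ?_))
    · ring
    · ring
  have h7 : k * (ρ * ε ^ 2) / 4 ≤ t + 2 * (t * k) / N := le_of_mul_le_mul_left h6 hbk0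
  have h8 : 2 * (t * k) / N ≤ k * (ρ * ε ^ 2) / 8 := by
    rw [div_le_iff₀ hN0]
    nlinarith [mul_le_mul_of_nonneg_right hN1 hk0.le]
  linarith

end Pool.Agent.U671.SD
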