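import Pool.Agent.U671.SD.Cells

/-!
Graphs without `K_{s,t}` whose neighbourhoods are (nearly) semialgebraic sets of small complexity.
-/

set_option autoImplicit false

namespace Pool.Agent.U671.SD

open Finset

open scoped Classical

section

variable {n s t : ℕ} (R : Fin n → Fin n → Prop)

/-- Counting `s`-subsets in one rectangle. -/
theorem kst_count (hfree : ∀ S : Finset (Fin n), S.card = s →
    (univ.filter (fun x => ∀ u ∈ S, R x u)).card ≤ t) (A B : Finset (Fin n)) :
    ∑ x ∈ B, ((A.filter (R x)).card).choose s ≤ t * A.card.choose s := by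
  have e1 : ∀ x ∈ B, ((A.filter (R x)).card).choose s =
      ∑ S ∈ A.powersetCard s, if ∀ u ∈ S, R x u then 1 else 0 := by
    intro x _
    rw [← Finset.card_powersetCard, ← Finset.sum_filter, ← Finset.card_eq_sum_ones]
    congr 1
    ext S
    simp only [Finset.mem_powersetCard, Finset.mem_filter, Finset.subset_iff]
    constructor
    · rintro ⟨h1, h2⟩
      exact ⟨⟨fun u hu => (h1 hu).1, h2⟩, fun u hu => (h1 hu).2⟩
    · rintro ⟨⟨h1, h2⟩, h3⟩
      exact ⟨fun u hu => ⟨h1 hu, h3 u hu⟩, h2⟩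
  rw [Finset.sum_congr rfl e1, Finset.sum_comm]
  calc ∑ S ∈ A.powersetCard s, ∑ x ∈ B, (if ∀ u ∈ S, R x u then 1 else 0)
      ≤ ∑ S ∈ A.powersetCard s, t := by
        refine Finset.sum_le_sum fun S hS => ?_
        rw [← Finset.sum_filter, ← Finset.card_eq_sum_ones]
        refine le_trans (Finset.card_le_card ?_) (hfree S (Finset.mem_powersetCard.1 hS).2)
        intro x hx
        rw [Finset.mem_filter] at hx ⊢
        exact ⟨mem_univ _, hx.2⟩
    _ = t * A.card.choose s := by
        rw [Finset.sum_const, smul_eq_mul, Finset.card_powersetCard, Nat.mul_comm]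

/-- The Kővári-Sós-Turán bound for a family of rectangles. -/
theorem kstF (hs : 1 ≤ s) (hfree : ∀ S : Finset (Fin n), S.card = s →
    (univ.filter (fun x => ∀ u ∈ S, R x u)).card ≤ t) {κ : Type} (I : Finset κ)
    (A B : κ → Finset (Fin n)) (P Q : ℝ) (hP : ∑ i ∈ I, ((B i).card : ℝ) ≤ P)
    (hQ : ∑ i ∈ I, ((A i).card : ℝ) ^ s ≤ Q) :
    ∑ i ∈ I, ∑ x ∈ B i, (((A i).filter (R x)).card : ℝ) ≤
      (P ^ (s - 1) * (t * Q)) ^ (1 / (s : ℝ)) + s * P := by
  set d : κ → Fin n → ℕ := fun i x => ((A i).filter (R x)).card with hd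
  set J : Finset (Σ _ : κ, Fin n) := I.sigma B with hJ
  have hJc : (J.card : ℝ) ≤ P := by
    rw [hJ, Finset.card_sigma]
    push_cast
    exact hP
  have hP0 : 0 ≤ P := (Nat.cast_nonneg _).trans hJc
  have hs0 : (s : ℝ) ≠ 0 := by
    have : s ≠ 0 := by omega
    exact_mod_cast this
  set f : (Σ _ : κ, Fin n) → ℝ := fun p => ((d p.1 p.2 + 1 - s : ℕ) : ℝ) with hf
  have h1 : ∑ i ∈ I, ∑ x ∈ B i, (d i x : ℝ) = ∑ p ∈ J, (d p.1 p.2 : ℝ) := by
    rw [hJ, Finset.sum_sigma]
  have h2 : ∑ p ∈ J, (d p.1 p.2 : ℝ) ≤ ∑ p ∈ J, f p + s * P := by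
    have h3 : ∀ p ∈ J, (d p.1 p.2 : ℝ) ≤ f p + s := by
      intro p _
      simp only [hf]
      have : d p.1 p.2 ≤ (d p.1 p.2 + 1 - s) + s := by omega
      exact_mod_cast this
    refine (Finset.sum_le_sum h3).trans ?_
    rw [Finset.sum_add_distrib, Finset.sum_const, nsmul_eq_mul]
    have : (J.card : ℝ) * s ≤ s * P := by
      rw [mul_comm]
      exact mul_le_mul_of_nonneg_left hJc (Nat.cast_nonneg _)
    linarith
  have hf0 : ∀ p ∈ J, 0 ≤ f p := fun p _ => Nat.cast_nonneg _
  have h4 : ∑ p ∈ J, f p ^ s ≤ t * Q := by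
    have h5 : ∀ p ∈ J, f p ^ s ≤ ((s.factorial * (d p.1 p.2).choose s : ℕ) : ℝ) := by
      intro p _
      rw [← Nat.descFactorial_eq_factorial_mul_choose]
      simp only [hf]
      have := Nat.pow_sub_le_descFactorial (d p.1 p.2) s
      exact_mod_cast this
    refine (Finset.sum_le_sum h5).trans ?_
    rw [hJ, Finset.sum_sigma]
    have h6 : ∀ i ∈ I, ∑ x ∈ B i, ((s.factorial * (d i x).choose s : ℕ) : ℝ) ≤
        t * ((A i).card : ℝ) ^ s := by
      intro i _
      have h7 := kst_count R hfree (A i) (B i)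
      have h8 : ∑ x ∈ B i, s.factorial * (d i x).choose s ≤ t * (A i).card ^ s := by
        rw [← Finset.mul_sum]
        calc s.factorial * ∑ x ∈ B i, (d i x).choose s
            ≤ s.factorial * (t * (A i).card.choose s) := Nat.mul_le_mul_left _ h7
          _ = t * ((A i).card.descFactorial s) := by
              rw [Nat.descFactorial_eq_factorial_mul_choose]; ring
          _ ≤ t * (A i).card ^ s := Nat.mul_le_mul_left _ (Nat.descFactorial_le_pow _ _)
      exact_mod_cast h8
    refine (Finset.sum_le_sum h6).trans ?_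
    rw [← Finset.mul_sum]
    exact mul_le_mul_of_nonneg_left hQ (Nat.cast_nonneg _)
  have h9 : (∑ p ∈ J, f p) ^ s ≤ P ^ (s - 1) * (t * Q) := by
    obtain ⟨m, rfl⟩ : ∃ m, s = m + 1 := ⟨s - 1, by omega⟩
    refine (pow_sum_le_card_mul_sum_pow hf0 m).trans ?_
    rw [Nat.add_sub_cancel]
    refine mul_le_mul (pow_le_pow_left₀ (Nat.cast_nonneg _) hJc m) h4
      (Finset.sum_nonneg fun p hp => pow_nonneg (hf0 p hp) _) (pow_nonneg hP0 _)
  have h10 : ∑ p ∈ J, f p ≤ (P ^ (s - 1) * (t * Q)) ^ (1 / (s : ℝ)) := by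
    have h11 : 0 ≤ ∑ p ∈ J, f p := Finset.sum_nonneg hf0
    have h12 : ∑ p ∈ J, f p = ((∑ p ∈ J, f p) ^ s) ^ (1 / (s : ℝ)) := by
      rw [← Real.rpow_natCast, ← Real.rpow_mul h11, mul_one_div_cancel hs0, Real.rpow_one]
    rw [h12]
    exact Real.rpow_le_rpow (pow_nonneg h11 _) h9 (by positivity)
  rw [h1]
  linarith

end

/-- `x ^ (s - 1)` and roots. -/
theorem root_aux (s : ℕ) (hs : 1 ≤ s) (x y : ℝ) (hx : 0 ≤ x) (hy : 0 ≤ y) :
    (x ^ (s - 1) * y) ^ (1 / (s : ℝ)) = x ^ (1 - 1 / (s : ℝ)) * y ^ (1 / (s : ℝ)) := by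
  have hs0 : (s : ℝ) ≠ 0 := by
    have : s ≠ 0 := by omega
    exact_mod_cast this
  rw [Real.mul_rpow (pow_nonneg hx _) hy, ← Real.rpow_natCast, ← Real.rpow_mul hx]
  congr 2
  rw [Nat.cast_sub hs, Nat.cast_one]
  field_simp

theorem main_count {n s t : ℕ} (R : Fin n → Fin n → Prop) (hs : 1 ≤ s) (ht : 1 ≤ t)
    (hfree : ∀ S : Finset (Fin n), S.card = s →
      (univ.filter (fun x => ∀ u ∈ S, R x u)).card ≤ t)
    {κ : Type} [Fintype κ] (c : Fin n → Option κ) (K N T : ℕ) (hK : 1 ≤ K) (hN : 1 ≤ N)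
    (hκ : Fintype.card κ ≤ K * N) (hnone : (univ.filter (fun i => c i = none)).card ≤ K * N)
    (hcell : ∀ σ, (univ.filter (fun i => c i = some σ)).card * N ≤ n)
    (S : Fin n → Finset (Fin n))
    (hT : ∀ x, (univ.filter (fun σ : κ => ∃ i i', c i = some σ ∧ c i' = some σ ∧
      i ∈ S x ∧ i' ∉ S x)).card ≤ T)
    (herr : 4 * ∑ x, (univ.filter (fun y => y ≠ x ∧ ¬ (y ∈ S x ↔ R x y))).card ≤
      ∑ x, (univ.filter (R x)).card) :
    ((∑ x, (univ.filter (R x)).card : ℕ) : ℝ) ≤
      2 * (((t : ℝ) ^ (1 / (s : ℝ)) * (K * N * (1 + 4 * s)) * (n : ℝ) ^ (1 - 1 / (s : ℝ)) + s * n) +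
        ((t : ℝ) * K) ^ (1 / (s : ℝ)) * ((n : ℝ) ^ (2 - 1 / (s : ℝ)) *
          ((T : ℝ) / N) ^ (1 - 1 / (s : ℝ))) + s * (n * T) + (4 ^ s * t + 2) * n) := by
  set cl : κ → Finset (Fin n) := fun σ => univ.filter (fun i => c i = some σ) with hcl
  set nb : Fin n → Finset (Fin n) := fun x => univ.filter (R x) with hnb
  set Cr : Fin n → Finset κ := fun x => univ.filter (fun σ : κ => ∃ i i', c i = some σ ∧
    c i' = some σ ∧ i ∈ S x ∧ i' ∉ S x) with hCr
  set W : Fin n → Finset (Fin n) := fun x =>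
    univ.filter (fun y => y ≠ x ∧ ¬ (y ∈ S x ↔ R x y)) with hW
  set Er : ℕ := ∑ x, (W x).card with hEr
  set sm : Finset κ := univ.filter (fun σ => (cl σ).card < 4 * s) with hsm
  set P0 : Finset (Fin n) := univ.filter (fun i => c i = none) ∪ sm.biUnion cl with hP0
  set B1 : κ → Finset (Fin n) := fun σ => univ.filter (fun x => σ ∈ Cr x) with hB1
  set B2 : κ → Finset (Fin n) := fun σ => univ.filter (fun x => cl σ ⊆ S x) with hB2
  set big : Finset κ := univ.filter (fun σ => 4 * s ≤ (cl σ).card) with hbig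
  have hs0 : (0 : ℝ) < s := by exact_mod_cast (by omega : 0 < s)
  have hN0 : (0 : ℝ) < N := by exact_mod_cast (by omega : 0 < N)
  have ht0 : (1 : ℝ) ≤ t := by exact_mod_cast ht
  have hn0 : (0 : ℝ) ≤ n := Nat.cast_nonneg _
  have hT0 : (0 : ℝ) ≤ T := Nat.cast_nonneg _
  have hdisj : ∀ σ σ' : κ, σ ≠ σ' → Disjoint (cl σ) (cl σ') := by
    intro σ σ' hss
    rw [Finset.disjoint_left]
    intro i hi hi'
    rw [hcl, Finset.mem_filter] at hi hi'
    rw [hi.2] at hi'
    exact hss (Option.some.inj hi'.2)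
  have hclsum : ∑ σ, (cl σ).card ≤ n := by
    rw [← Finset.card_biUnion (fun σ _ σ' _ h => hdisj σ σ' h)]
    refine (Finset.card_le_univ _).trans ?_
    rw [Fintype.card_fin]
  have hP0c : P0.card ≤ K * N * (1 + 4 * s) := by
    have h1 : (sm.biUnion cl).card ≤ K * N * (4 * s) := by
      refine Finset.card_biUnion_le.trans ?_
      calc ∑ σ ∈ sm, (cl σ).card ≤ ∑ σ ∈ sm, 4 * s :=
            Finset.sum_le_sum fun σ hσ => (Finset.mem_filter.1 hσ).2.le
        _ = sm.card * (4 * s) := by rw [Finset.sum_const, smul_eq_mul]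
        _ ≤ K * N * (4 * s) := by
            refine Nat.mul_le_mul_right _ (le_trans (Finset.card_filter_le _ _) ?_)
            rw [Finset.card_univ]
            exact hκ
    calc P0.card ≤ K * N + K * N * (4 * s) :=
          (Finset.card_union_le _ _).trans (Nat.add_le_add hnone h1)
      _ = _ := by ring
  -- decomposition of a neighbourhood
  have hdec : ∀ x, (nb x).card ≤ (P0.filter (R x)).card +
      ∑ σ ∈ Cr x, ((cl σ).filter (R x)).card +
      ∑ σ ∈ big.filter (fun σ => cl σ ⊆ S x), ((cl σ).filter (R x)).card + ((W x).card + 1) := by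
    intro x
    have hsub : nb x ⊆ (P0.filter (R x)) ∪ (Cr x).biUnion (fun σ => (cl σ).filter (R x)) ∪
        (big.filter (fun σ => cl σ ⊆ S x)).biUnion (fun σ => (cl σ).filter (R x)) ∪
        (W x ∪ {x}) := by
      intro y hy
      have hRy : R x y := (Finset.mem_filter.1 hy).2
      rw [Finset.mem_union, Finset.mem_union, Finset.mem_union]
      by_cases hyS : y ∈ S x
      · left
        rcases hc : c y with _ | σ
        · left; left
          rw [Finset.mem_filter, hP0, Finset.mem_union, Finset.mem_filter]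
          exact ⟨Or.inl ⟨mem_univ _, hc⟩, hRy⟩
        · have hyσ : y ∈ cl σ := Finset.mem_filter.2 ⟨mem_univ _, hc⟩
          by_cases hsmall : (cl σ).card < 4 * s
          · left; left
            rw [Finset.mem_filter, hP0, Finset.mem_union, Finset.mem_biUnion]
            exact ⟨Or.inr ⟨σ, Finset.mem_filter.2 ⟨mem_univ _, hsmall⟩, hyσ⟩, hRy⟩
          · by_cases hσ : σ ∈ Cr x
            · left; right
              rw [Finset.mem_biUnion]
              exact ⟨σ, hσ, Finset.mem_filter.2 ⟨hyσ, hRy⟩⟩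
            · right
              rw [Finset.mem_biUnion]
              refine ⟨σ, ?_, Finset.mem_filter.2 ⟨hyσ, hRy⟩⟩
              rw [Finset.mem_filter]
              refine ⟨Finset.mem_filter.2 ⟨mem_univ _, not_lt.1 hsmall⟩, ?_⟩
              intro y' hy'
              by_contra hcon
              apply hσ
              rw [hCr, Finset.mem_filter]
              exact ⟨mem_univ _, y, y', hc, (Finset.mem_filter.1 hy').2, hyS, hcon⟩
      · right
        rw [Finset.mem_union, Finset.mem_singleton]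
        by_cases hxy : y = x
        · exact Or.inr hxy
        · left
          rw [hW, Finset.mem_filter]
          refine ⟨mem_univ _, hxy, ?_⟩
          tauto
    refine (Finset.card_le_card hsub).trans ?_
    refine (Finset.card_union_le _ _).trans (Nat.add_le_add ?_ ?_)
    · refine (Finset.card_union_le _ _).trans (Nat.add_le_add ?_ Finset.card_biUnion_le)
      exact (Finset.card_union_le _ _).trans (Nat.add_le_add le_rfl Finset.card_biUnion_le)
    · exact (Finset.card_union_le _ _).trans (Nat.add_le_add le_rfl (by simp))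
  -- (i)
  have hI : ((∑ x, (P0.filter (R x)).card : ℕ) : ℝ) ≤
      (t : ℝ) ^ (1 / (s : ℝ)) * (K * N * (1 + 4 * s)) * (n : ℝ) ^ (1 - 1 / (s : ℝ)) + s * n := by
    have h1 := kstF R hs hfree (κ := Unit) {()} (fun _ => P0) (fun _ => univ) n
      ((P0.card : ℝ) ^ s) (by simp) (by simp)
    rw [Finset.sum_singleton, root_aux s hs _ _ hn0 (by positivity)] at h1
    have h2 : ((t : ℝ) * (P0.card : ℝ) ^ s) ^ (1 / (s : ℝ)) = (t : ℝ) ^ (1 / (s : ℝ)) * P0.card := by
      rw [Real.mul_rpow (by positivity) (by positivity), ← Real.rpow_natCast,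
        ← Real.rpow_mul (Nat.cast_nonneg _), mul_one_div_cancel hs0.ne', Real.rpow_one]
    rw [h2] at h1
    push_cast
    refine h1.trans ?_
    have h3 : (P0.card : ℝ) ≤ K * N * (1 + 4 * s) := by exact_mod_cast hP0c
    have h4 : (n : ℝ) ^ (1 - 1 / (s : ℝ)) * ((t : ℝ) ^ (1 / (s : ℝ)) * P0.card) ≤
        (t : ℝ) ^ (1 / (s : ℝ)) * (K * N * (1 + 4 * s)) * (n : ℝ) ^ (1 - 1 / (s : ℝ)) := by
      have h5 : 0 ≤ (t : ℝ) ^ (1 / (s : ℝ)) * (n : ℝ) ^ (1 - 1 / (s : ℝ)) := by positivity
      nlinarith [mul_le_mul_of_nonneg_left h3 h5]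
    linarith
  -- (ii)
  have hswap1 : ∑ x, ∑ σ ∈ Cr x, ((cl σ).filter (R x)).card =
      ∑ σ, ∑ x ∈ B1 σ, ((cl σ).filter (R x)).card := by
    refine Finset.sum_comm' fun x σ => ?_
    rw [hB1]
    simp
  have hII : ((∑ x, ∑ σ ∈ Cr x, ((cl σ).filter (R x)).card : ℕ) : ℝ) ≤
      ((t : ℝ) * K) ^ (1 / (s : ℝ)) * ((n : ℝ) ^ (2 - 1 / (s : ℝ)) *
          ((T : ℝ) / N) ^ (1 - 1 / (s : ℝ))) + s * (n * T) := by
    rw [hswap1]
    have hPs : ∑ σ, ((B1 σ).card : ℝ) ≤ n * T := by
      have h1 : ∑ σ, (B1 σ).card = ∑ x, (Cr x).card := by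
        have e1 : ∀ σ, (B1 σ).card = ∑ x, if σ ∈ Cr x then 1 else 0 := by
          intro σ
          rw [← Finset.sum_filter, ← Finset.card_eq_sum_ones]
        have e2 : ∀ x, (Cr x).card = ∑ σ, if σ ∈ Cr x then 1 else 0 := by
          intro x
          rw [← Finset.sum_filter, ← Finset.card_eq_sum_ones, Finset.filter_mem_eq_inter,
            Finset.univ_inter]
        rw [Finset.sum_congr rfl (fun σ _ => e1 σ), Finset.sum_congr rfl (fun x _ => e2 x),
          Finset.sum_comm]
      have h2 : ∑ x, (Cr x).card ≤ n * T := by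
        calc ∑ x, (Cr x).card ≤ ∑ _x : Fin n, T := Finset.sum_le_sum fun x _ => hT x
          _ = n * T := by rw [Finset.sum_const, smul_eq_mul, Finset.card_univ, Fintype.card_fin]
      rw [← h1] at h2
      exact_mod_cast h2
    have hQs : ∑ σ, ((cl σ).card : ℝ) ^ s ≤ K * N * ((n : ℝ) / N) ^ s := by
      calc ∑ σ, ((cl σ).card : ℝ) ^ s ≤ ∑ _σ : κ, ((n : ℝ) / N) ^ s := by
            refine Finset.sum_le_sum fun σ _ => pow_le_pow_left₀ (Nat.cast_nonneg _) ?_ _
            rw [le_div_iff₀ hN0]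
            exact_mod_cast hcell σ
        _ = (Fintype.card κ : ℝ) * ((n : ℝ) / N) ^ s := by
            rw [Finset.sum_const, nsmul_eq_mul, Finset.card_univ]
        _ ≤ K * N * ((n : ℝ) / N) ^ s := by
            refine mul_le_mul_of_nonneg_right ?_ (by positivity)
            exact_mod_cast hκ
    have h1 := kstF R hs hfree (univ : Finset κ) cl B1 (n * T) (K * N * ((n : ℝ) / N) ^ s) hPs hQs
    rw [root_aux s hs _ _ (by positivity) (by positivity)] at h1
    push_cast
    refine h1.trans (add_le_add (le_of_eq ?_) le_rfl)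
    have h2 : ((t : ℝ) * (K * N * ((n : ℝ) / N) ^ s)) ^ (1 / (s : ℝ)) =
        ((t : ℝ) * K) ^ (1 / (s : ℝ)) * ((N : ℝ) ^ (1 / (s : ℝ)) * (n / N)) := by
      rw [show (t : ℝ) * (K * N * ((n : ℝ) / N) ^ s) = (t * K) * (N * ((n : ℝ) / N) ^ s) by ring,
        Real.mul_rpow (x := (t : ℝ) * K) (by positivity) (by positivity),
        Real.mul_rpow (x := (N : ℝ)) (by positivity) (by positivity)]
      have e : (((n : ℝ) / N) ^ s) ^ (1 / (s : ℝ)) = n / N := by
        rw [← Real.rpow_natCast, ← Real.rpow_mul (by positivity), mul_one_div_cancel hs0.ne',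
          Real.rpow_one]
      rw [e]
    rw [h2, Real.mul_rpow hn0 hT0, Real.div_rpow hT0 hN0.le]
    have h3 : (n : ℝ) ^ (2 - 1 / (s : ℝ)) = (n : ℝ) ^ (1 - 1 / (s : ℝ)) * n := by
      rcases eq_or_lt_of_le hn0 with h | h
      · rw [← h, mul_zero, Real.zero_rpow]
        have : 1 / (s : ℝ) ≤ 1 := by
          rw [div_le_one hs0]
          exact_mod_cast hs
        linarith
      · rw [show (2 : ℝ) - 1 / (s : ℝ) = (1 - 1 / (s : ℝ)) + 1 by ring, Real.rpow_add h,
          Real.rpow_one]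
    have h4 : (N : ℝ) ^ (1 / (s : ℝ)) * ((n : ℝ) / N) = n / (N : ℝ) ^ (1 - 1 / (s : ℝ)) := by
      rw [Real.rpow_sub hN0, Real.rpow_one]
      have : (N : ℝ) ^ (1 / (s : ℝ)) ≠ 0 := (Real.rpow_pos_of_pos hN0 _).ne'
      field_simp
    rw [h4, h3]
    ring
  -- (iii)
  have hswap2 : ∑ x, ∑ σ ∈ big.filter (fun σ => cl σ ⊆ S x), ((cl σ).filter (R x)).card =
      ∑ σ ∈ big, ∑ x ∈ B2 σ, ((cl σ).filter (R x)).card := by
    refine Finset.sum_comm' fun x σ => ?_
    rw [hB2]
    simp [and_comm]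
  have hone : ∀ σ ∈ big, ∑ x ∈ B2 σ, ((cl σ).filter (R x)).card ≤
      ∑ x ∈ B2 σ, ((cl σ).filter (fun y => y ≠ x ∧ ¬ R x y)).card + (cl σ).card +
        4 ^ s * t * (cl σ).card := by
    intro σ hσ
    have hbg : 4 * s ≤ (cl σ).card := (Finset.mem_filter.1 hσ).2
    rcases Nat.lt_or_ge (B2 σ).card (4 ^ s * t) with h | h
    · have h1 : ∑ x ∈ B2 σ, ((cl σ).filter (R x)).card ≤ (B2 σ).card * (cl σ).card := by
        rw [← smul_eq_mul, ← Finset.sum_const]
        exact Finset.sum_le_sum fun x _ => Finset.card_filter_le _ _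
      have h2 : (B2 σ).card * (cl σ).card ≤ 4 ^ s * t * (cl σ).card :=
        Nat.mul_le_mul_right _ h.le
      omega
    · -- many rows
      set b := (B2 σ).card with hb
      set a := (cl σ).card with ha
      have h1 := kstF R hs hfree (κ := Unit) {()} (fun _ => cl σ) (fun _ => B2 σ) b
        ((a : ℝ) ^ s) (by simp [hb]) (by simp [ha])
      rw [Finset.sum_singleton, root_aux s hs _ _ (Nat.cast_nonneg _) (by positivity)] at h1
      have h2 : ((t : ℝ) * (a : ℝ) ^ s) ^ (1 / (s : ℝ)) = (t : ℝ) ^ (1 / (s : ℝ)) * a := by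
        rw [Real.mul_rpow (by positivity) (by positivity), ← Real.rpow_natCast,
          ← Real.rpow_mul (Nat.cast_nonneg _), mul_one_div_cancel hs0.ne', Real.rpow_one]
      rw [h2] at h1
      have hb4 : (4 : ℝ) ^ s * t ≤ b := by exact_mod_cast h
      have hb0 : (0 : ℝ) < b := lt_of_lt_of_le (by positivity) hb4
      have h3 : 4 * (t : ℝ) ^ (1 / (s : ℝ)) ≤ (b : ℝ) ^ (1 / (s : ℝ)) := by
        have h4 : ((4 : ℝ) ^ s * t) ^ (1 / (s : ℝ)) = 4 * (t : ℝ) ^ (1 / (s : ℝ)) := by
          rw [Real.mul_rpow (by positivity) (by positivity), ← Real.rpow_natCast,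
            ← Real.rpow_mul (by norm_num), mul_one_div_cancel hs0.ne', Real.rpow_one]
        rw [← h4]
        exact Real.rpow_le_rpow (by positivity) hb4 (by positivity)
      have h5 : (b : ℝ) ^ (1 - 1 / (s : ℝ)) * (b : ℝ) ^ (1 / (s : ℝ)) = b := by
        rw [← Real.rpow_add hb0]
        simp
      have h6 : (b : ℝ) ^ (1 - 1 / (s : ℝ)) * ((t : ℝ) ^ (1 / (s : ℝ)) * a) ≤ b * a / 4 := by
        have h7 : 0 ≤ (b : ℝ) ^ (1 - 1 / (s : ℝ)) * a := by positivity
        have h8 := mul_le_mul_of_nonneg_left h3 h7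
        have h9 : (b : ℝ) ^ (1 - 1 / (s : ℝ)) * a * (b : ℝ) ^ (1 / (s : ℝ)) = b * a := by
          rw [mul_right_comm, h5]
        rw [h9] at h8
        linarith
      have h7 : (s : ℝ) * b ≤ b * a / 4 := by
        have : (4 : ℝ) * s ≤ a := by exact_mod_cast hbg
        nlinarith
      have h8 : ((∑ x ∈ B2 σ, ((cl σ).filter (R x)).card : ℕ) : ℝ) ≤ b * a / 2 := by
        push_cast
        linarith
      have h9 : 2 * ∑ x ∈ B2 σ, ((cl σ).filter (R x)).card ≤ b * a := by
        have : (2 : ℝ) * ((∑ x ∈ B2 σ, ((cl σ).filter (R x)).card : ℕ) : ℝ) ≤ b * a := by linarith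
        exact_mod_cast this
      have h10 : b * a ≤ ∑ x ∈ B2 σ, ((cl σ).filter (R x)).card +
          ∑ x ∈ B2 σ, ((cl σ).filter (fun y => y ≠ x ∧ ¬ R x y)).card + a := by
        have h11 : ∀ x ∈ B2 σ, a ≤ ((cl σ).filter (R x)).card +
            ((cl σ).filter (fun y => y ≠ x ∧ ¬ R x y)).card + if x ∈ cl σ then 1 else 0 := by
          intro x _
          have h12 : cl σ ⊆ (cl σ).filter (R x) ∪ (cl σ).filter (fun y => y ≠ x ∧ ¬ R x y) ∪
              ((cl σ).filter (fun y => y = x)) := by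
            intro y hy
            rw [Finset.mem_union, Finset.mem_union]
            by_cases h13 : R x y
            · exact Or.inl (Or.inl (Finset.mem_filter.2 ⟨hy, h13⟩))
            · by_cases h14 : y = x
              · exact Or.inr (Finset.mem_filter.2 ⟨hy, h14⟩)
              · exact Or.inl (Or.inr (Finset.mem_filter.2 ⟨hy, h14, h13⟩))
          refine (Finset.card_le_card h12).trans ((Finset.card_union_le _ _).trans
            (Nat.add_le_add (Finset.card_union_le _ _) ?_))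
          split_ifs with hx
          · have : (cl σ).filter (fun y => y = x) ⊆ {x} := by
              intro y hy
              rw [Finset.mem_singleton]
              exact (Finset.mem_filter.1 hy).2
            simpa using Finset.card_le_card this
          · rw [Nat.le_zero, Finset.card_eq_zero, Finset.filter_eq_empty_iff]
            intro y hy hyx
            exact hx (hyx ▸ hy)
        have h13 := Finset.sum_le_sum h11
        rw [Finset.sum_const, smul_eq_mul, Finset.sum_add_distrib, Finset.sum_add_distrib] at h13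
        refine h13.trans (Nat.add_le_add_left ?_ _)
        rw [← Finset.sum_filter, ← Finset.card_eq_sum_ones]
        refine Finset.card_le_card ?_
        intro x hx
        exact (Finset.mem_filter.1 hx).2
      omega
  have hIII : ∑ x, ∑ σ ∈ big.filter (fun σ => cl σ ⊆ S x), ((cl σ).filter (R x)).card ≤
      Er + n + 4 ^ s * t * n := by
    rw [hswap2]
    refine (Finset.sum_le_sum hone).trans ?_
    rw [Finset.sum_add_distrib, Finset.sum_add_distrib, ← Finset.mul_sum]
    have h1 : ∑ σ ∈ big, (cl σ).card ≤ n :=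
      (Finset.sum_le_sum_of_subset (Finset.subset_univ _)).trans hclsum
    have h2 : ∑ σ ∈ big, ∑ x ∈ B2 σ, ((cl σ).filter (fun y => y ≠ x ∧ ¬ R x y)).card ≤ Er := by
      have h3 : ∑ σ ∈ big, ∑ x ∈ B2 σ, ((cl σ).filter (fun y => y ≠ x ∧ ¬ R x y)).card =
          ∑ x, ∑ σ ∈ big.filter (fun σ => cl σ ⊆ S x),
            ((cl σ).filter (fun y => y ≠ x ∧ ¬ R x y)).card := by
        symm
        refine Finset.sum_comm' fun x σ => ?_
        rw [hB2]
        simp [and_comm]
      rw [h3, hEr]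
      refine Finset.sum_le_sum fun x _ => ?_
      rw [← Finset.card_biUnion]
      · refine Finset.card_le_card ?_
        intro y hy
        rw [Finset.mem_biUnion] at hy
        obtain ⟨σ, hσ, hy⟩ := hy
        rw [Finset.mem_filter] at hσ hy
        rw [hW, Finset.mem_filter]
        have := hσ.2 hy.1
        refine ⟨mem_univ _, hy.2.1, ?_⟩
        tauto
      · intro σ _ σ' _ h
        exact Finset.disjoint_of_subset_left (Finset.filter_subset _ _)
          (Finset.disjoint_of_subset_right (Finset.filter_subset _ _) (hdisj σ σ' h))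
    exact Nat.add_le_add (Nat.add_le_add h2 h1) (Nat.mul_le_mul_left _ h1)
  -- conclusion
  have htot : ∑ x, (nb x).card ≤ ∑ x, (P0.filter (R x)).card +
      ∑ x, ∑ σ ∈ Cr x, ((cl σ).filter (R x)).card + (Er + n + 4 ^ s * t * n) + (Er + n) := by
    refine (Finset.sum_le_sum fun x _ => hdec x).trans ?_
    rw [Finset.sum_add_distrib, Finset.sum_add_distrib, Finset.sum_add_distrib]
    refine Nat.add_le_add (Nat.add_le_add le_rfl hIII) (le_of_eq ?_)
    rw [Finset.sum_add_distrib, ← hEr]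
    simp
  have htot' : ((∑ x, (nb x).card : ℕ) : ℝ) ≤ ((∑ x, (P0.filter (R x)).card : ℕ) : ℝ) +
      ((∑ x, ∑ σ ∈ Cr x, ((cl σ).filter (R x)).card : ℕ) : ℝ) + (Er + n + 4 ^ s * t * n) +
      (Er + n) := by exact_mod_cast htot
  have herr' : 4 * (Er : ℝ) ≤ ((∑ x, (nb x).card : ℕ) : ℝ) := by exact_mod_cast herr
  linarith

end Pool.Agent.U671.SD
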