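import Pool.Agent.U671.SD.Cells

/-!
Boolean matrices whose rows are semialgebraic sets of small complexity have large monochromatic
rectangles.
-/

set_option autoImplicit false

namespace Pool.Agent.U671.SD

open MvPolynomial Finset
open Pool.Agent.R98.EQ

open scoped Classical

/-- `S ⊆ ℝ^d` is a Boolean combination of conditions `g > 0`, `g = 0`, `g < 0` on finitely many
polynomials `g` for which the sum of the total degrees is at most `D`. -/
def SemiAlg (d D : ℕ) (S : Set (Fin d → ℝ)) : Prop :=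
  ∃ (t : ℕ) (g : Fin t → MvPolynomial (Fin d) ℝ) (Φ : Set (Fin t → SignType)),
    ∑ r, (g r).totalDegree ≤ D ∧ ∀ x, x ∈ S ↔ (fun r => SignType.sign (eval x (g r))) ∈ Φ

/-- The columns `y` of the Boolean matrix `F` can be placed at points `p y` of `ℝ^d` such that each
row is cut out by a semialgebraic set of complexity at most `D`. -/
def Rows {X Y : Type*} (d D : ℕ) (F : X → Y → Bool) : Prop :=
  ∃ p : Y → Fin d → ℝ, ∀ x, ∃ S, SemiAlg d D S ∧ ∀ y, p y ∈ S ↔ F x y = true

/-- A majority value of a column. -/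
theorem majority {X : Type*} (A : Finset X) (f : X → Bool) :
    ∃ v : Bool, A.card ≤ 2 * (A.filter (fun x => f x = v)).card := by
  have h := Finset.card_filter_add_card_filter_not (s := A) (fun x => f x = true)
  by_cases h1 : A.card ≤ 2 * (A.filter (fun x => f x = true)).card
  · exact ⟨true, h1⟩
  · refine ⟨false, ?_⟩
    have e : A.filter (fun x => ¬ f x = true) = A.filter (fun x => f x = false) := by
      refine Finset.filter_congr fun x _ => ?_
      simp
    rw [e] at h
    omega

theorem rect (d : ℕ) (hd : 1 ≤ d) : ∃ C : ℕ, 1 ≤ C ∧ ∀ {X Y : Type*} (F : X → Y → Bool) (D : ℕ),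
    1 ≤ D → Rows d D F → ∀ (A : Finset X) (B : Finset Y), A.Nonempty → B.Nonempty →
      ∃ A' ⊆ A, ∃ B' ⊆ B, ∃ v : Bool, (∀ x ∈ A', ∀ y ∈ B', F x y = v) ∧
        A.card * B.card ≤ C * D ^ d * (A'.card * B'.card) := by
  obtain ⟨K, hK, hcells⟩ := cells d hd
  refine ⟨32 * K * (32 * K) ^ d, Nat.one_le_iff_ne_zero.2 (by positivity), ?_⟩
  intro X Y F D hD hF A B hA hB
  obtain ⟨p, hp⟩ := hF
  -- the scale
  have hx0 : 16 * K * D ≠ 0 := by positivity
  set L : ℕ := Nat.log 2 (16 * K * D) + 1 with hL
  have hL1 : 16 * K * D < 2 ^ L := Nat.lt_pow_succ_log_self (by norm_num) _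
  have hL2 : 2 ^ L ≤ 32 * K * D := by
    have := Nat.pow_log_le_self 2 hx0
    rw [hL, pow_succ]
    linarith
  have hKD : D ≤ K * D := Nat.le_mul_of_pos_left _ (by omega)
  have hDL : 2 * D ≤ 2 ^ L := by
    have e : 16 * K * D = 16 * (K * D) := by ring
    omega
  set N : ℕ := 2 ^ (d * L) with hN
  have hNle : N ≤ (32 * K) ^ d * D ^ d := by
    rw [hN, Nat.mul_comm d L, pow_mul, ← mul_pow]
    exact Nat.pow_le_pow_left hL2 d
  have hN0 : 0 < N := by positivity
  have hq : 32 * K * N ≤ 32 * K * (32 * K) ^ d * D ^ d := by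
    calc 32 * K * N ≤ 32 * K * ((32 * K) ^ d * D ^ d) := Nat.mul_le_mul_left _ hNle
      _ = _ := by ring
  suffices h : ∃ A' ⊆ A, ∃ B' ⊆ B, ∃ v : Bool, (∀ x ∈ A', ∀ y ∈ B', F x y = v) ∧
        A.card * B.card ≤ 32 * K * N * (A'.card * B'.card) by
    obtain ⟨A', hA', B', hB', v, hv, hc⟩ := h
    exact ⟨A', hA', B', hB', v, hv, hc.trans (Nat.mul_le_mul_right _ hq)⟩
  set n : ℕ := B.card with hn
  have hA0 : 0 < A.card := hA.card_pos
  have hn0 : 0 < n := hB.card_pos
  by_cases hsmall : n ≤ 8 * K * N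
  · -- few columns: one column is enough
    obtain ⟨b, hb⟩ := hB
    obtain ⟨v, hv⟩ := majority A (fun x => F x b)
    refine ⟨A.filter (fun x => F x b = v), Finset.filter_subset _ _, {b},
      Finset.singleton_subset_iff.2 hb, v, ?_, ?_⟩
    · intro x hx y hy
      rw [Finset.mem_singleton] at hy
      rw [hy]
      exact (Finset.mem_filter.1 hx).2
    · rw [Finset.card_singleton, mul_one]
      calc A.card * n ≤ (2 * (A.filter (fun x => F x b = v)).card) * (8 * K * N) :=
            Nat.mul_le_mul hv hsmall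
        _ = 16 * K * N * (A.filter (fun x => F x b = v)).card := by ring
        _ ≤ 32 * K * N * (A.filter (fun x => F x b = v)).card := by
            refine Nat.mul_le_mul_right _ (Nat.mul_le_mul_right _ ?_)
            omega
  push Not at hsmall
  let e : Fin n ≃ B := (Finset.equivFinOfCardEq rfl).symm
  obtain ⟨κ, hκ, c, h1, h2, h3, h4⟩ := hcells n (fun i => p (e i).1) L D hDL
  set cl : κ → Finset (Fin n) := fun s => univ.filter (fun i => c i = some s) with hcl
  -- the cells cut by a row
  set Cr : X → Finset κ := fun a => univ.filter (fun s => ∃ i i', c i = some s ∧ c i' = some s ∧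
    F a (e i).1 ≠ F a (e i').1) with hCr
  set T : ℕ := K * (2 * D) * 2 ^ ((d - 1) * L) with hT
  have hTN : 8 * T ≤ N := by
    have e1 : N = 2 ^ ((d - 1) * L) * 2 ^ L := by
      rw [hN, ← pow_add]
      congr 1
      obtain ⟨d', rfl⟩ : ∃ d', d = d' + 1 := ⟨d - 1, by omega⟩
      rw [Nat.add_sub_cancel]
      ring
    rw [e1, hT]
    calc 8 * (K * (2 * D) * 2 ^ ((d - 1) * L)) = 2 ^ ((d - 1) * L) * (16 * K * D) := by ring
      _ ≤ 2 ^ ((d - 1) * L) * 2 ^ L := Nat.mul_le_mul_left _ hL1.le
  have hCrT : ∀ a, (Cr a).card ≤ T := by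
    intro a
    obtain ⟨S, ⟨t, g, Φ, hg1, hg2⟩, hS⟩ := hp a
    refine le_trans (Finset.card_le_card ?_) (h4 (List.ofFn g) (by
      unfold degSum
      rw [List.map_ofFn, List.sum_ofFn]
      exact hg1))
    intro s hs
    rw [hCr, Finset.mem_filter] at hs
    rw [Finset.mem_filter]
    obtain ⟨_, i, i', hi, hi', hne⟩ := hs
    refine ⟨mem_univ _, i, i', hi, hi', ?_⟩
    by_contra hcon
    apply hne
    have h5 : (fun r => SignType.sign (eval (p (e i).1) (g r))) =
        fun r => SignType.sign (eval (p (e i').1) (g r)) := by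
      funext r
      by_contra h6
      exact hcon ⟨g r, List.mem_ofFn.2 ⟨r, rfl⟩, h6⟩
    have h6 : F a (e i).1 = true ↔ F a (e i').1 = true := by
      rw [← hS, ← hS, hg2, hg2, h5]
    exact Bool.eq_iff_iff.2 h6
  have hCrsum : ∀ a, 8 * ∑ s ∈ Cr a, (cl s).card ≤ n := by
    intro a
    have h5 : (∑ s ∈ Cr a, (cl s).card) * N ≤ T * n := by
      rw [Finset.sum_mul]
      calc ∑ s ∈ Cr a, (cl s).card * N ≤ ∑ s ∈ Cr a, n := Finset.sum_le_sum fun s _ => h3 s
        _ = (Cr a).card * n := by rw [Finset.sum_const, smul_eq_mul]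
        _ ≤ T * n := Nat.mul_le_mul_right _ (hCrT a)
    have h6 : (8 * ∑ s ∈ Cr a, (cl s).card) * N ≤ n * N := by
      calc (8 * ∑ s ∈ Cr a, (cl s).card) * N = 8 * ((∑ s ∈ Cr a, (cl s).card) * N) := by ring
        _ ≤ 8 * (T * n) := Nat.mul_le_mul_left _ h5
        _ = (8 * T) * n := by ring
        _ ≤ N * n := Nat.mul_le_mul_right _ hTN
        _ = n * N := Nat.mul_comm _ _
    exact Nat.le_of_mul_le_mul_right h6 hN0
  -- large cells
  set G : Finset κ := univ.filter (fun s => n ≤ 8 * K * N * (cl s).card) with hG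
  have hdisj : ∀ s s' : κ, s ≠ s' → Disjoint (cl s) (cl s') := by
    intro s s' hss
    rw [Finset.disjoint_left]
    intro i hi hi'
    rw [hcl, Finset.mem_filter] at hi hi'
    rw [hi.2] at hi'
    exact hss (Option.some.inj hi'.2)
  have hcover : n ≤ (univ.filter (fun i => c i = none)).card + ∑ s, (cl s).card := by
    have h5 : (univ : Finset (Fin n)) ⊆ univ.filter (fun i => c i = none) ∪ univ.biUnion cl := by
      intro i _
      rw [Finset.mem_union]
      rcases hc : c i with _ | s
      · left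
        rw [Finset.mem_filter]
        exact ⟨mem_univ _, hc⟩
      · right
        rw [Finset.mem_biUnion]
        refine ⟨s, mem_univ _, ?_⟩
        rw [hcl, Finset.mem_filter]
        exact ⟨mem_univ _, hc⟩
    have h6 := Finset.card_le_card h5
    rw [Finset.card_univ, Fintype.card_fin] at h6
    refine h6.trans ((Finset.card_union_le _ _).trans (Nat.add_le_add_left ?_ _))
    exact Finset.card_biUnion_le
  have hsm : 8 * ∑ s ∈ univ.filter (fun s => ¬ n ≤ 8 * K * N * (cl s).card), (cl s).card ≤ n := by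
    have h5 : (K * N) * (8 * ∑ s ∈ univ.filter (fun s => ¬ n ≤ 8 * K * N * (cl s).card),
        (cl s).card) ≤ (K * N) * n := by
      calc (K * N) * (8 * ∑ s ∈ univ.filter (fun s => ¬ n ≤ 8 * K * N * (cl s).card), (cl s).card)
          = ∑ s ∈ univ.filter (fun s => ¬ n ≤ 8 * K * N * (cl s).card),
            8 * K * N * (cl s).card := by
            rw [Finset.mul_sum, Finset.mul_sum]
            exact Finset.sum_congr rfl fun s _ => by ring
        _ ≤ ∑ s ∈ univ.filter (fun s => ¬ n ≤ 8 * K * N * (cl s).card), n := by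
            refine Finset.sum_le_sum fun s hs => ?_
            have := (Finset.mem_filter.1 hs).2
            omega
        _ = (univ.filter (fun s => ¬ n ≤ 8 * K * N * (cl s).card)).card * n := by
            rw [Finset.sum_const, smul_eq_mul]
        _ ≤ (K * N) * n := by
            refine Nat.mul_le_mul_right _ (le_trans (Finset.card_filter_le _ _) ?_)
            rw [Finset.card_univ]
            exact h1
    exact Nat.le_of_mul_le_mul_left h5 (by positivity)
  have hbig : 3 * n ≤ 4 * ∑ s ∈ G, (cl s).card := by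
    have h5 : ∑ s, (cl s).card = ∑ s ∈ G, (cl s).card +
        ∑ s ∈ univ.filter (fun s => ¬ n ≤ 8 * K * N * (cl s).card), (cl s).card := by
      rw [hG, Finset.sum_filter_add_sum_filter_not]
    have h6 : 8 * K * N = 8 * (K * N) := by ring
    rw [h6] at hsmall
    have h7 : (univ.filter (fun i => c i = none)).card ≤ K * N := h2
    omega
  -- a cell which is not cut by half of the rows
  obtain ⟨s, hsG, hs⟩ : ∃ s ∈ G, 2 * (A.filter (fun a => s ∈ Cr a)).card < A.card := by
    by_contra hcon
    push Not at hcon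
    have h5 : A.card * ∑ s ∈ G, (cl s).card ≤
        2 * ∑ s ∈ G, (A.filter (fun a => s ∈ Cr a)).card * (cl s).card := by
      rw [Finset.mul_sum, Finset.mul_sum]
      refine Finset.sum_le_sum fun s hs => ?_
      rw [← mul_assoc]
      exact Nat.mul_le_mul_right _ (hcon s hs)
    have h6 : ∑ s ∈ G, (A.filter (fun a => s ∈ Cr a)).card * (cl s).card ≤
        ∑ a ∈ A, ∑ s ∈ Cr a, (cl s).card := by
      have h7 : ∀ s ∈ G, (A.filter (fun a => s ∈ Cr a)).card * (cl s).card =
          ∑ a ∈ A, if s ∈ Cr a then (cl s).card else 0 := by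
        intro s _
        rw [← Finset.sum_filter, Finset.sum_const, smul_eq_mul]
      rw [Finset.sum_congr rfl h7, Finset.sum_comm]
      refine Finset.sum_le_sum fun a _ => ?_
      rw [← Finset.sum_filter]
      refine Finset.sum_le_sum_of_subset ?_
      intro s hs
      exact (Finset.mem_filter.1 hs).2
    have h7 : 8 * ∑ a ∈ A, ∑ s ∈ Cr a, (cl s).card ≤ A.card * n := by
      rw [Finset.mul_sum]
      calc ∑ a ∈ A, 8 * ∑ s ∈ Cr a, (cl s).card ≤ ∑ a ∈ A, n :=
            Finset.sum_le_sum fun a _ => hCrsum a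
        _ = A.card * n := by rw [Finset.sum_const, smul_eq_mul]
    have h8 : A.card * (3 * n) ≤ A.card * (4 * ∑ s ∈ G, (cl s).card) :=
      Nat.mul_le_mul_left _ hbig
    have h9 : 0 < A.card * n := Nat.mul_pos hA0 hn0
    have e1 : A.card * (3 * n) = 3 * (A.card * n) := by ring
    have e2 : A.card * (4 * ∑ s ∈ G, (cl s).card) = 4 * (A.card * ∑ s ∈ G, (cl s).card) := by ring
    omega
  have hsn : n ≤ 8 * K * N * (cl s).card := (Finset.mem_filter.1 hsG).2
  have hcl0 : (cl s).Nonempty := by
    rw [← Finset.card_pos]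
    by_contra hcon
    have : (cl s).card = 0 := by omega
    rw [this, mul_zero] at hsn
    omega
  obtain ⟨i0, hi0⟩ := hcl0
  have hi0' : c i0 = some s := (Finset.mem_filter.1 hi0).2
  set A'' : Finset X := A \ A.filter (fun a => s ∈ Cr a) with hA''
  have hA''c : A.card ≤ 2 * A''.card := by
    have h5 : A''.card + (A.filter (fun a => s ∈ Cr a)).card = A.card :=
      Finset.card_sdiff_add_card_eq_card (Finset.filter_subset _ A)
    omega
  obtain ⟨v, hv⟩ := majority A'' (fun a => F a (e i0).1)
  refine ⟨A''.filter (fun a => F a (e i0).1 = v),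
    (Finset.filter_subset _ _).trans Finset.sdiff_subset,
    (cl s).map ⟨fun i => (e i).1, fun i j h => e.injective (Subtype.ext h)⟩, ?_, v, ?_, ?_⟩
  · intro y hy
    obtain ⟨i, _, rfl⟩ := Finset.mem_map.1 hy
    exact (e i).2
  · intro a ha y hy
    obtain ⟨i, hi, rfl⟩ := Finset.mem_map.1 hy
    have h5 := Finset.mem_filter.1 ha
    have h6 : s ∉ Cr a := by
      have h7 := Finset.mem_sdiff.1 h5.1
      intro h8
      exact h7.2 (Finset.mem_filter.2 ⟨h7.1, h8⟩)
    have hi' : c i = some s := (Finset.mem_filter.1 hi).2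
    rw [← h5.2]
    by_contra hcon
    apply h6
    rw [hCr, Finset.mem_filter]
    exact ⟨mem_univ _, i, i0, hi', hi0', hcon⟩
  · rw [Finset.card_map]
    calc A.card * n ≤ (2 * A''.card) * (8 * K * N * (cl s).card) := Nat.mul_le_mul hA''c hsn
      _ ≤ (2 * (2 * (A''.filter (fun a => F a (e i0).1 = v)).card)) *
          (8 * K * N * (cl s).card) := Nat.mul_le_mul_right _ (Nat.mul_le_mul_left _ hv)
      _ = 32 * K * N * ((A''.filter (fun a => F a (e i0).1 = v)).card * (cl s).card) := by ring

end Pool.Agent.U671.SD
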